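import Mathlib

set_option autoImplicit false

open Set

namespace Pool.Agent.Results.MP_f06e6c_an.Minimal

/-- The map `f₀`. -/
noncomputable def f₀ (x₀ y₀ x : ℝ) : ℝ :=
  if x ≤ x₀ then y₀ / x₀ * x else (1 - y₀) / (1 - x₀) * (x - 1) + 1

/-- The map `f₁`. -/
noncomputable def f₁ (x₀ y₀ x : ℝ) : ℝ := 1 - f₀ x₀ y₀ (1 - x)

/-- The orbit of `x`: images of `x` under all finite compositions of `f₀` and `f₁`. -/
def orbit (x₀ y₀ x : ℝ) : Set ℝ :=
  {z | ∃ w : List Bool, z = w.foldl (fun t i => if i then f₁ x₀ y₀ t else f₀ x₀ y₀ t) x}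

structure Inv (x₀ y₀ : ℝ) (A : Set ℝ) : Prop where
  ne : A.Nonempty
  sub : A ⊆ Ioo 0 1
  h0 : ∀ z ∈ A, f₀ x₀ y₀ z ∈ A
  h1 : ∀ z ∈ A, f₁ x₀ y₀ z ∈ A

variable {x₀ y₀ a b : ℝ}

lemma Inv.refl {A : Set ℝ} (h : Inv x₀ y₀ A) : Inv x₀ y₀ {z | 1 - z ∈ A} where
  ne := by obtain ⟨z, hz⟩ := h.ne; exact ⟨1 - z, by simpa using hz⟩
  sub := fun z hz => ⟨by linarith [(h.sub hz).2], by linarith [(h.sub hz).1]⟩
  h0 := fun z hz => by simpa [f₁] using h.h1 _ hz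
  h1 := fun z hz => by simpa [f₁] using h.h0 _ hz

structure Par (x₀ y₀ a b : ℝ) : Prop where
  x1 : x₀ < 1
  y1 : 1 / 2 ≤ y₀
  yx : y₀ < x₀
  ha : a * x₀ = y₀
  hb : b * (1 - x₀) = 1 - y₀
  a0 : 0 < a
  a1 : a < 1
  b1 : 1 < b
  f : ∀ z, f₀ x₀ y₀ z = if z ≤ x₀ then a * z else b * (z - 1) + 1

lemma low (P : Par x₀ y₀ a b) {B : Set ℝ} {d : ℝ} (hd : 0 < d) (h : ∀ z ∈ B, d ≤ z ∧ z < 1)
    (h0 : ∀ z ∈ B, f₀ x₀ y₀ z ∈ B) : B = ∅ := by
  by_contra hne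
  obtain ⟨y, hy⟩ := nonempty_iff_ne_empty.2 hne
  set η := min ((1 - a) * d) ((b - 1) * (1 - y)) with hη
  have η0 : 0 < η := lt_min (mul_pos (sub_pos.2 P.a1) hd)
    (mul_pos (sub_pos.2 P.b1) (sub_pos.2 (h y hy).2))
  have key : ∀ n : ℕ, ∃ z ∈ B, z ≤ y - n * η := by
    intro n
    induction n with
    | zero => exact ⟨y, hy, by simp⟩
    | succ n ih =>
      obtain ⟨z, hz, hz'⟩ := ih
      refine ⟨_, h0 z hz, ?_⟩
      have c0 : 0 ≤ n * η := by positivity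
      have c1 : η ≤ (1 - a) * d := min_le_left _ _
      have c2 : η ≤ (b - 1) * (1 - y) := min_le_right _ _
      rw [P.f]
      push_cast
      split_ifs
      · nlinarith [(h z hz).1, P.a1]
      · nlinarith [P.b1]
  obtain ⟨n, hn⟩ := exists_nat_gt (y / η)
  obtain ⟨z, hz, hz'⟩ := key n
  rw [div_lt_iff₀ η0] at hn
  linarith [(h z hz).1]

def Free (A : Set ℝ) (c d : ℝ) : Prop := ∀ z ∈ A, z ≤ c ∨ d ≤ z

lemma Free.refl {A : Set ℝ} {c d : ℝ} (h : Free A c d) : Free {z | 1 - z ∈ A} (1 - d) (1 - c) :=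
  fun z hz => (h _ hz).symm.imp (fun h => by linarith) fun h => by linarith

lemma E0 (P : Par x₀ y₀ a b) {A : Set ℝ} (h : Inv x₀ y₀ A) {c d : ℝ} (hf : Free A c d)
    (hd : d ≤ y₀) : Free A (c / a) (d / a) := by
  intro z hz
  by_contra hc
  push Not at hc
  rw [div_lt_iff₀ P.a0, lt_div_iff₀ P.a0] at hc
  have := hf _ (h.h0 z hz)
  rw [P.f, if_pos (by nlinarith [P.ha, P.a0])] at this
  rcases this with h | h <;> linarith

lemma jump (P : Par x₀ y₀ a b) {A : Set ℝ} (h : Inv x₀ y₀ A) {c d : ℝ} (hf : Free A c d)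
    (hcd : c < d) (hd : 0 < d) (hc : c < 1) : d ≤ c / a := by
  by_contra hlt
  rw [not_le, div_lt_iff₀ P.a0] at hlt
  have e1 : {z ∈ A | c < z} = ∅ := by
    refine low P hd (fun z hz => ⟨(hf z hz.1).resolve_left (not_le.2 hz.2), (h.sub hz.1).2⟩)
      fun z hz => ⟨h.h0 z hz.1, ?_⟩
    have := (hf z hz.1).resolve_left (not_le.2 hz.2)
    rw [P.f]
    split_ifs with h1
    · nlinarith [P.a0]
    · nlinarith [P.ha, P.hb, P.a1, P.b1, P.a0, mul_pos (sub_pos.2 (P.a1.trans P.b1))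
        (sub_pos.2 (not_le.1 h1))]
  have e2 := low P (B := {z | 1 - z ∈ A}) (d := 1 - c) (by linarith) (fun z hz => ⟨?_,
    (h.refl.sub hz).2⟩) h.refl.h0
  · exact h.refl.ne.ne_empty e2
  · by_contra hz'
    exact (eq_empty_iff_forall_notMem.1 e1) (1 - z) ⟨hz, by linarith [not_le.1 hz']⟩

lemma pre (P : Par x₀ y₀ a b) {A : Set ℝ} (h : Inv x₀ y₀ A) {c d : ℝ} (hf : Free A c d)
    (hc : c < y₀) (hd : y₀ < d) : Free A (c / a) (1 - (1 - d) / b) := by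
  intro z hz
  by_contra hn
  push Not at hn
  obtain ⟨h1, h2⟩ := hn
  have b0 : 0 < b := by linarith [P.b1]
  rw [div_lt_iff₀ P.a0] at h1
  rw [lt_sub_comm, div_lt_iff₀ b0] at h2
  have := hf _ (h.h0 z hz)
  rw [P.f] at this
  split_ifs at this with h3
  · rcases this with h | h <;> nlinarith [P.ha, P.a0]
  · rcases this with h | h <;> nlinarith [P.hb]

lemma E1 (P : Par x₀ y₀ a b) {A : Set ℝ} (h : Inv x₀ y₀ A) {c d l : ℝ} (hf : Free A c d)
    (hl : 0 < l) (hcd : l ≤ d - c) (h0 : 0 < d) (hd : d ≤ y₀) :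
    ∃ B c' d', Inv x₀ y₀ B ∧ Free B c' d' ∧ l / a ≤ d' - c' ∧ 0 < d' ∧ c' < 1 := by
  refine ⟨A, _, _, h, E0 P h hf hd, ?_, div_pos h0 P.a0, ?_⟩
  · rw [← sub_div]
    exact div_le_div_of_nonneg_right hcd P.a0.le
  · rw [div_lt_iff₀ P.a0]
    nlinarith [P.ha, P.x1, P.a0]

lemma grow (P : Par x₀ y₀ a b) {A : Set ℝ} (h : Inv x₀ y₀ A) {c d l : ℝ} (hf : Free A c d)
    (hl : 0 < l) (hcd : l ≤ d - c) (hd : 0 < d) (hc : c < 1) :
    ∃ B c' d', Inv x₀ y₀ B ∧ Free B c' d' ∧ l / a ≤ d' - c' ∧ 0 < d' ∧ c' < 1 := by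
  by_cases h1 : d ≤ y₀
  · exact E1 P h hf hl hcd hd h1
  by_cases h2 : 1 - c ≤ y₀
  · exact E1 P h.refl hf.refl hl (by linarith) (by linarith) h2
  push Not at h1 h2
  have j1 := jump P h hf (by linarith) hd hc
  have j2 := jump P h.refl hf.refl (by linarith) (by linarith) (by linarith)
  have p1 := pre P h hf (by linarith [P.y1]) h1
  have p2 := pre P h.refl hf.refl (by linarith [P.y1]) h2
  rw [sub_sub_cancel] at p2
  have b0 : 0 < b := by linarith [P.b1]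
  have s : 1 / a + 1 / b ≤ 2 := by
    have y0 : 0 < y₀ := by linarith [P.y1]
    have y2 : 0 < 1 - y₀ := by linarith [P.x1, P.yx]
    have e1 : 1 / a = x₀ / y₀ := by rw [div_eq_div_iff P.a0.ne' y0.ne']; linarith [P.ha]
    have e2 : 1 / b = (1 - x₀) / (1 - y₀) := by
      rw [div_eq_div_iff b0.ne' y2.ne']; linarith [P.hb]
    rw [e1, e2, div_add_div _ _ y0.ne' y2.ne', div_le_iff₀ (mul_pos y0 y2)]
    nlinarith [mul_nonneg (sub_nonneg.2 P.yx.le) (sub_nonneg.2 P.y1)]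
  have c0 : 0 < c := by
    by_contra h0
    have : c / a ≤ 0 := div_nonpos_of_nonpos_of_nonneg (not_lt.1 h0) P.a0.le
    linarith
  have d1 : 0 < 1 - d := by
    by_contra h0
    have : (1 - d) / a ≤ 0 := div_nonpos_of_nonpos_of_nonneg (not_lt.1 h0) P.a0.le
    linarith
  have t : (1 - d + c) * (1 / a + 1 / b) ≤ (1 - d + c) * 2 :=
    mul_le_mul_of_nonneg_left s (by linarith)
  have t2 : (1 - d + c) * (1 / a + 1 / b) = (1 - d) / a + (1 - d) / b + c / a + c / b := by ring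
  have u1 := div_pos d1 b0
  have u2 := div_pos c0 b0
  by_cases h3 : d - c ≤ 1 - (1 - d) / b - c / a
  · exact E1 P h.refl p1.refl hl (by linarith) (by linarith) (by linarith [P.y1])
  · exact E1 P h.refl.refl p2.refl hl (by linarith) (by linarith) (by linarith [P.y1])

lemma nofree (P : Par x₀ y₀ a b) {A : Set ℝ} (h : Inv x₀ y₀ A) {c d : ℝ} (hf : Free A c d)
    (hcd : c < d) (hd : 0 < d) (hc : c < 1) : False := by
  have key : ∀ n : ℕ, ∃ B c' d', Inv x₀ y₀ B ∧ Free B c' d' ∧ (d - c) / a ^ n ≤ d' - c' ∧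
      0 < d' ∧ c' < 1 := by
    intro n
    induction n with
    | zero => exact ⟨A, c, d, h, hf, by simp, hd, hc⟩
    | succ n ih =>
      obtain ⟨B, c', d', h1, h2, h3, h4, h5⟩ := ih
      rw [pow_succ, ← div_div]
      exact grow P h1 h2 (div_pos (sub_pos.2 hcd) (pow_pos P.a0 n)) h3 h4 h5
  obtain ⟨n, hn⟩ := exists_pow_lt_of_lt_one (sub_pos.2 hcd) P.a1
  obtain ⟨B, c', d', h1, h2, h3, h4, h5⟩ := key n
  have l1 := (one_lt_div (pow_pos P.a0 n)).2 hn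
  have j1 := jump P h1 h2 (by linarith) h4 h5
  have j2 := jump P h1.refl h2.refl (by linarith) (by linarith) (by linarith)
  rw [le_div_iff₀ P.a0] at j1 j2
  nlinarith [mul_pos h4 P.a0, mul_pos (sub_pos.2 h5) P.a0]

theorem result (x₀ y₀ : ℝ) (hx : 1 / 2 < x₀) (hx1 : x₀ < 1) (hy : 1 / 2 ≤ y₀) (hyx : y₀ < x₀)
    (x : ℝ) (h : x ∈ Ioo (0 : ℝ) 1) : Ioo (0 : ℝ) 1 ⊆ closure (orbit x₀ y₀ x) := by
  have x0 : 0 < x₀ := by linarith
  have x2 : 0 < 1 - x₀ := by linarith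
  have P : Par x₀ y₀ (y₀ / x₀) ((1 - y₀) / (1 - x₀)) :=
    ⟨hx1, hy, hyx, div_mul_cancel₀ _ x0.ne', div_mul_cancel₀ _ x2.ne', div_pos (by linarith) x0,
      (div_lt_one x0).2 hyx, (one_lt_div x2).2 (by linarith), fun _ => rfl⟩
  have m0 : ∀ z ∈ Ioo (0 : ℝ) 1, f₀ x₀ y₀ z ∈ Ioo (0 : ℝ) 1 := by
    intro z hz
    rw [P.f]
    split_ifs with h1
    · exact ⟨mul_pos P.a0 hz.1, by nlinarith [P.a1, P.a0, hz.1, hz.2]⟩
    · exact ⟨by nlinarith [P.hb, P.b1, not_le.1 h1], by nlinarith [P.b1, hz.2]⟩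
  have m1 : ∀ z ∈ Ioo (0 : ℝ) 1, f₁ x₀ y₀ z ∈ Ioo (0 : ℝ) 1 := fun z hz => by
    have := m0 (1 - z) ⟨by linarith [hz.2], by linarith [hz.1]⟩
    exact ⟨by unfold f₁; linarith [this.2], by unfold f₁; linarith [this.1]⟩
  have I : Inv x₀ y₀ (orbit x₀ y₀ x) := by
    refine ⟨⟨x, [], rfl⟩, ?_, ?_, ?_⟩
    · rintro _ ⟨w, rfl⟩
      induction w using List.reverseRecOn with
      | nil => exact h
      | append_singleton w i ih =>
        rw [List.foldl_append, List.foldl_cons, List.foldl_nil]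
        split_ifs
        exacts [m1 _ ih, m0 _ ih]
    · rintro _ ⟨w, rfl⟩
      exact ⟨w ++ [false], by simp⟩
    · rintro _ ⟨w, rfl⟩
      exact ⟨w ++ [true], by simp⟩
  intro t ht
  rw [Metric.mem_closure_iff]
  intro ε hε
  by_contra hn
  push Not at hn
  refine nofree P I (c := t - ε) (d := t + ε) (fun z hz => ?_) (by linarith) (by linarith [ht.1])
    (by linarith [ht.2])
  have := hn z hz
  rw [Real.dist_eq, le_abs] at this
  exact this.imp (fun h => by linarith) fun h => by linarith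

end Pool.Agent.Results.MP_f06e6c_an.Minimal
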